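import Pool.Agent.T9h20.TE.Spec

/-!
# Project TE, piece (H): decomposition of a window into intervals without a change of the
dominating terms
-/

set_option autoImplicit false

open MeasureTheory Set Filter Topology
open scoped ENNReal NNReal

namespace Pool.Agent.T9h81.TE

open Pool.Agent.T9h20.TA (mon sel isSel_sel mx gg hh ta kap)
open Pool.Agent.T9h20.TE

/-- the point where two terms have the same absolute value -/
noncomputable def cr (c1 c2 a1 a2 : ℝ) : ℝ := Real.log (|c2| / |c1|) / (a1 - a2)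

theorem abs_mon {t : ℕ} (c a : Fin t → ℝ) (s : Fin t) (y : ℝ) :
    |mon c a s y| = |c s| * Real.exp (a s * y) := by
  unfold mon
  rw [abs_mul, Real.abs_exp]

/-- difference of the logarithms -/
theorem log_diff {t : ℕ} (c a : Fin t → ℝ) {s r : Fin t} (hs : c s ≠ 0) (hr : c r ≠ 0) (y : ℝ) :
    |mon c a r y| ≤ |mon c a s y| ↔ Real.log (|c r| / |c s|) ≤ (a s - a r) * y := by
  have h1 : 0 < |c s| := abs_pos.2 hs
  have h2 : 0 < |c r| := abs_pos.2 hr
  rw [abs_mon, abs_mon, Real.log_le_iff_le_exp (div_pos h2 h1), div_le_iff₀ h1]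
  have e : Real.exp ((a s - a r) * y) * |c s| =
      (|c s| * Real.exp (a s * y)) * Real.exp (-(a r * y)) := by
    rw [mul_assoc, ← Real.exp_add, mul_comm]
    congr 2
    ring
  rw [e]
  constructor
  · intro h
    calc |c r| = (|c r| * Real.exp (a r * y)) * Real.exp (-(a r * y)) := by
          rw [mul_assoc, ← Real.exp_add]; simp
      _ ≤ _ := mul_le_mul_of_nonneg_right h (Real.exp_pos _).le
  · intro h
    calc |c r| * Real.exp (a r * y)
        ≤ ((|c s| * Real.exp (a s * y)) * Real.exp (-(a r * y))) * Real.exp (a r * y) :=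
          mul_le_mul_of_nonneg_right h (Real.exp_pos _).le
      _ = |c s| * Real.exp (a s * y) := by
          rw [mul_assoc, ← Real.exp_add]; simp

/-- the facts about one interval without crossing points -/
theorem interval {t : ℕ} [NeZero t] (c a : Fin t → ℝ) (hc : ∃ s, c s ≠ 0) (x b m : ℝ) (hm : m ∈ Ioo x b)
    (hno : ∀ s r, ∀ y ∈ Ioo x b, y ≠ cr (c s) (c r) (a s) (a r)) :
    c (sel c a m) ≠ 0 ∧ ∀ y ∈ Ioo x b, ta c a y = a (sel c a m) ∧
      mx c a y = |mon c a (sel c a m) y| := by
  obtain ⟨s1, hs1⟩ := hc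
  set s0 := sel c a m with hs0
  have hsel := isSel_sel c a m
  have hne : c s0 ≠ 0 := by
    intro h0
    have h1 := hsel.1 s1
    rw [← hs0, abs_mon, abs_mon, h0, abs_zero, zero_mul] at h1
    have h2 : 0 < |c s1| * Real.exp (a s1 * m) := mul_pos (abs_pos.2 hs1) (Real.exp_pos _)
    linarith
  refine ⟨hne, ?_⟩
  -- dominance
  have hdom : ∀ y ∈ Ioo x b, ∀ r, |mon c a r y| ≤ |mon c a s0 y| := by
    intro y hy r
    by_cases hr : c r = 0
    · rw [abs_mon c a r, hr, abs_zero, zero_mul]
      exact abs_nonneg _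
    rw [log_diff c a hne hr]
    have h1 : Real.log (|c r| / |c s0|) ≤ (a s0 - a r) * m := (log_diff c a hne hr m).1 (hsel.1 r)
    by_cases ha : a s0 - a r = 0
    · rw [ha, zero_mul] at h1 ⊢
      exact h1
    · set y0 := cr (c s0) (c r) (a s0) (a r) with hy0
      have e : Real.log (|c r| / |c s0|) = (a s0 - a r) * y0 := by
        rw [hy0, cr, mul_div_cancel₀ _ ha]
      rw [e] at h1 ⊢
      have hny : y0 ∉ Ioo x b := fun h => hno s0 r y0 h hy0
      rcases lt_or_gt_of_ne ha with hneg | hpos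
      · have h2 : m ≤ y0 := by
          by_contra hcon
          push Not at hcon
          nlinarith
        have h3 : b ≤ y0 := by
          by_contra hcon
          push Not at hcon
          exact hny ⟨lt_of_lt_of_le hm.1 h2, hcon⟩
        have h4 : y ≤ y0 := hy.2.le.trans h3
        nlinarith
      · have h2 : y0 ≤ m := by
          by_contra hcon
          push Not at hcon
          nlinarith
        have h3 : y0 ≤ x := by
          by_contra hcon
          push Not at hcon
          exact hny ⟨hcon, lt_of_le_of_lt h2 hm.2⟩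
        have h4 : y0 ≤ y := h3.trans hy.1.le
        exact mul_le_mul_of_nonneg_left h4 hpos.le
  intro y hy
  have hsy := isSel_sel c a y
  set r := sel c a y with hr
  have heq : |mon c a r y| = |mon c a s0 y| := le_antisymm (hdom y hy r) (hsy.1 s0)
  have hcr : c r ≠ 0 := by
    intro h0
    rw [abs_mon, abs_mon, h0, abs_zero, zero_mul] at heq
    have h2 : 0 < |c s0| * Real.exp (a s0 * y) := mul_pos (abs_pos.2 hne) (Real.exp_pos _)
    linarith
  constructor
  · show a r = a s0
    by_contra hcon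
    have ha : a s0 - a r ≠ 0 := fun h => hcon (by linarith)
    have h1 := (log_diff c a hne hcr y).1 heq.le
    have h2 := (log_diff c a hcr hne y).1 heq.ge
    have h3 : Real.log (|c s0| / |c r|) = -Real.log (|c r| / |c s0|) := by
      rw [← Real.log_inv, inv_div]
    rw [h3] at h2
    have h4 : Real.log (|c r| / |c s0|) = (a s0 - a r) * y := by
      apply le_antisymm h1
      nlinarith
    apply hno s0 r y hy
    rw [cr, h4, mul_div_cancel_left₀ _ ha]
  · show |mon c a r y| = |mon c a s0 y|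
    exact heq

theorem WW_eq {t : ℕ} (c a : Fin t → ℝ) (s0 s : Fin t) (y : ℝ) :
    WW c a s0 s y = c s / c s0 * Real.exp ((a s - a s0) * y) := by
  unfold WW mon
  rw [mul_div_mul_comm, ← Real.exp_sub]
  congr 2
  ring

theorem WW_deriv {t : ℕ} (c a : Fin t → ℝ) (s0 s : Fin t) (y : ℝ) :
    HasDerivAt (WW c a s0 s) ((a s - a s0) * WW c a s0 s y) y := by
  have h1 : HasDerivAt (fun y : ℝ => c s / c s0 * Real.exp ((a s - a s0) * y))
      (c s / c s0 * (Real.exp ((a s - a s0) * y) * (a s - a s0))) y := by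
    have := (((hasDerivAt_id y).const_mul (a s - a s0)).exp).const_mul (c s / c s0)
    simpa using this
  have e : WW c a s0 s = fun y : ℝ => c s / c s0 * Real.exp ((a s - a s0) * y) :=
    funext fun y => WW_eq c a s0 s y
  rw [e]
  refine h1.congr_deriv ?_
  ring

theorem WW_cont {t : ℕ} (c a : Fin t → ℝ) (s0 s : Fin t) : Continuous (WW c a s0 s) :=
  continuous_iff_continuousAt.2 fun y => (WW_deriv c a s0 s y).continuousAt

theorem WW_var {t : ℕ} (c a : Fin t → ℝ) (s0 s : Fin t) {x b : ℝ} (hxb : x ≤ b) :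
    ‖WW c a s0 s b - WW c a s0 s x‖ₑ ≤
      ∫⁻ y in Ioo x b, ‖(a s - a s0) * WW c a s0 s y‖ₑ := by
  have hc : Continuous fun y => (a s - a s0) * WW c a s0 s y :=
    continuous_const.mul (WW_cont c a s0 s)
  have h1 : ∫ y in x..b, (a s - a s0) * WW c a s0 s y = WW c a s0 s b - WW c a s0 s x :=
    intervalIntegral.integral_eq_sub_of_hasDerivAt (fun y _ => WW_deriv c a s0 s y)
      (hc.intervalIntegrable _ _)
  rw [← h1, intervalIntegral.integral_of_le hxb, integral_Ioc_eq_integral_Ioo]
  exact enorm_integral_le_lintegral_enorm _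

theorem block_bound {t : ℕ} [NeZero t] (c a : Fin t → ℝ) (hc : ∃ s, c s ≠ 0) (x b m : ℝ)
    (hm : m ∈ Ioo x b) (hno : ∀ s r, ∀ y ∈ Ioo x b, y ≠ cr (c s) (c r) (a s) (a r)) :
    ∑ s, ‖WW c a (sel c a m) s b - WW c a (sel c a m) s x‖ₑ ≤ ∫⁻ y in Ioo x b, kap c a y := by
  obtain ⟨hne, hI⟩ := interval c a hc x b m hm hno
  set s0 := sel c a m with hs0
  have hxb : x ≤ b := (hm.1.trans hm.2).le
  have h1 : ∑ s, ‖WW c a s0 s b - WW c a s0 s x‖ₑ ≤
      ∑ s, ∫⁻ y in Ioo x b, ‖(a s - a s0) * WW c a s0 s y‖ₑ :=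
    Finset.sum_le_sum fun s _ => WW_var c a s0 s hxb
  have h2 : ∑ s, ∫⁻ y in Ioo x b, ‖(a s - a s0) * WW c a s0 s y‖ₑ =
      ∫⁻ y in Ioo x b, ∑ s, ‖(a s - a s0) * WW c a s0 s y‖ₑ := by
    rw [lintegral_finset_sum]
    intro s _
    exact (continuous_const.mul (WW_cont c a s0 s)).measurable.enorm
  rw [h2] at h1
  refine h1.trans (le_of_eq ?_)
  refine setLIntegral_congr_fun measurableSet_Ioo fun y hy => ?_
  obtain ⟨h3, h4⟩ := hI y hy
  unfold kap
  refine Finset.sum_congr rfl fun s _ => ?_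
  have h5 : ‖(a s - a s0) * WW c a s0 s y‖ = ‖hh c a s y‖ := by
    unfold hh gg WW
    rw [h3, h4, norm_mul, norm_mul, norm_div, norm_div, Real.norm_eq_abs |mon c a s0 y|, abs_abs,
      Real.norm_eq_abs (mon c a s0 y)]
  rw [← ofReal_norm_eq_enorm, ← ofReal_norm_eq_enorm, h5]

/-- (H) -/
theorem sSplit : SSplit := by
  classical
  intro q t _ c a hc M hM
  set Z : Finset ℝ := (Finset.univ : Finset (Fin q × Fin t × Fin t)).image
    (fun p => cr (c p.1 p.2.1) (c p.1 p.2.2) (a p.1 p.2.1) (a p.1 p.2.2)) with hZ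
  set X : Finset ℝ := insert (-M) (Z.filter fun z => z ∈ Ioo (-M) M) with hX
  have hXM : ∀ x ∈ X, -M ≤ x ∧ x < M := by
    intro x hx
    rw [hX, Finset.mem_insert] at hx
    rcases hx with rfl | hx
    · exact ⟨le_rfl, by linarith⟩
    · have := (Finset.mem_filter.1 hx).2
      exact ⟨this.1.le, this.2⟩
  set nx : ℝ → ℝ := fun x =>
    if h : (X.filter fun z => x < z).Nonempty then (X.filter fun z => x < z).min' h else M with hnx
  have hnxX : ∀ x ∈ X, nx x = M ∨ nx x ∈ X := by
    intro x _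
    by_cases h : (X.filter fun z => x < z).Nonempty
    · right
      have e : nx x = (X.filter fun z => x < z).min' h := by rw [hnx]; simp only; rw [dif_pos h]
      rw [e]
      exact (Finset.mem_filter.1 (Finset.min'_mem _ h)).1
    · left
      rw [hnx]; simp only; rw [dif_neg h]
  have hlt : ∀ x ∈ X, x < nx x := by
    intro x hx
    by_cases h : (X.filter fun z => x < z).Nonempty
    · have e : nx x = (X.filter fun z => x < z).min' h := by rw [hnx]; simp only; rw [dif_pos h]
      rw [e]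
      exact (Finset.mem_filter.1 (Finset.min'_mem _ h)).2
    · have e : nx x = M := by rw [hnx]; simp only; rw [dif_neg h]
      rw [e]
      exact (hXM x hx).2
  have hle : ∀ x ∈ X, ∀ z ∈ X, x < z → nx x ≤ z := by
    intro x _ z hz hxz
    have hmem : z ∈ X.filter fun z => x < z := Finset.mem_filter.2 ⟨hz, hxz⟩
    have h : (X.filter fun z => x < z).Nonempty := ⟨z, hmem⟩
    have e : nx x = (X.filter fun z => x < z).min' h := by rw [hnx]; simp only; rw [dif_pos h]
    rw [e]
    exact Finset.min'_le _ _ hmem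
  have hnM : ∀ x ∈ X, nx x ≤ M := by
    intro x hx
    rcases hnxX x hx with h | h
    · exact h.le
    · exact (hXM _ h).2.le
  have hno : ∀ x ∈ X, ∀ y ∈ Ioo x (nx x), y ∉ X := by
    intro x hx y hy hyX
    have := hle x hx y hyX hy.1
    linarith [hy.2]
  have hno2 : ∀ x ∈ X, ∀ j, ∀ s r, ∀ y ∈ Ioo x (nx x),
      y ≠ cr (c j s) (c j r) (a j s) (a j r) := by
    intro x hx j s r y hy hcon
    apply hno x hx y hy
    rw [hX, Finset.mem_insert]
    right
    refine Finset.mem_filter.2 ⟨?_, lt_of_le_of_lt (hXM x hx).1 hy.1, lt_of_lt_of_le hy.2 (hnM x hx)⟩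
    rw [hZ, Finset.mem_image]
    exact ⟨(j, s, r), Finset.mem_univ _, hcon.symm⟩
  have hmid : ∀ x ∈ X, (x + nx x) / 2 ∈ Ioo x (nx x) := by
    intro x hx
    have := hlt x hx
    constructor <;> linarith
  refine ⟨X, nx, fun x j => sel (c j) (a j) ((x + nx x) / 2), ?_, hlt, ?_, ?_, ?_, ?_⟩
  · have h1 : X.card ≤ (Z.filter fun z => z ∈ Ioo (-M) M).card + 1 := by
      rw [hX]; exact Finset.card_insert_le _ _
    have h2 : (Z.filter fun z => z ∈ Ioo (-M) M).card ≤ Z.card := Finset.card_filter_le _ _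
    have h3 : Z.card ≤ q * t ^ 2 := by
      rw [hZ]
      refine Finset.card_image_le.trans (le_of_eq ?_)
      rw [Finset.card_univ, Fintype.card_prod, Fintype.card_prod, Fintype.card_fin, Fintype.card_fin]
      ring
    omega
  · intro x hx j
    exact (interval (c j) (a j) (hc j) x (nx x) _ (hmid x hx) (hno2 x hx j)).1
  · intro y hy
    by_cases hyX : y ∈ X
    · exact Or.inl hyX
    right
    have hMX : -M ∈ X := by rw [hX]; exact Finset.mem_insert_self _ _
    have hne : (X.filter fun z => z < y).Nonempty := ⟨-M, Finset.mem_filter.2 ⟨hMX, hy.1⟩⟩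
    set x := (X.filter fun z => z < y).max' hne with hx
    have hxm := Finset.mem_filter.1 (Finset.max'_mem _ hne)
    rw [← hx] at hxm
    refine ⟨x, hxm.1, hxm.2, ?_⟩
    rcases hnxX x hxm.1 with h | h
    · rw [h]; exact hy.2
    · by_contra hcon
      push Not at hcon
      have h1 : nx x ≠ y := fun h2 => hyX (h2 ▸ h)
      have h2 : nx x < y := lt_of_le_of_ne hcon h1
      have h3 : nx x ≤ x := Finset.le_max' _ _ (Finset.mem_filter.2 ⟨h, h2⟩)
      linarith [hlt x hxm.1]
  · intro x hx x' hx' hne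
    rw [Set.disjoint_left]
    intro y hy hy'
    rcases lt_or_gt_of_ne hne with h | h
    · have := hle x hx x' hx' h
      linarith [hy.2, hy'.1]
    · have := hle x' hx' x hx h
      linarith [hy'.2, hy.1]
  · intro x hx j
    exact block_bound (c j) (a j) (hc j) x (nx x) _ (hmid x hx) (hno2 x hx j)

end Pool.Agent.T9h81.TE
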